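import Mathlib

namespace Pool.Agent.Results.MP_0ca78d_co.Neck

open SimpleGraph

/-- The edge `e` lies in a cycle of length `i` of `G`. -/
def InCyc {V : Type} (G : SimpleGraph V) (e : Sym2 V) (i : ℕ) : Prop :=
  ∃ v, ∃ c : G.Walk v v, c.IsCycle ∧ c.length = i ∧ e ∈ c.edges

/-- `G` is `k`-edge-proper: each edge lies in a cycle of every length `3, …, k` and in a
Hamilton cycle. -/
def EdgeProper {V : Type} [DecidableEq V] (k : ℕ) (G : SimpleGraph V) : Prop :=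
  ∀ e ∈ G.edgeSet, (∀ i, 3 ≤ i → i ≤ k → InCyc G e i) ∧
    ∃ v, ∃ c : G.Walk v v, c.IsHamiltonianCycle ∧ e ∈ c.edges

def E : List (ℕ × ℕ) :=
  [(0, 1), (0, 4), (1, 2), (1, 4), (2, 3), (2, 4), (3, 4), (3, 5), (3, 6), (3, 21), (3, 22), (3, 23), (3, 24), (4, 5), (5, 6), (5, 7), (5, 8), (5, 9), (6, 7), (7, 8), (8, 9), (9, 10), (9, 14), (10, 11), (10, 14), (11, 12), (11, 14), (12, 13), (12, 14), (13, 14), (13, 15), (13, 16), (13, 17), (13, 18), (14, 15), (15, 16), (16, 17), (17, 18), (18, 19), (18, 22), (19, 20), (19, 22), (20, 21), (20, 22), (21, 22), (22, 23), (23, 24), (23, 25), (23, 26), (24, 25), (25, 26)]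

def cycs : List (List (List ℕ)) :=
  [[], [], [],
   [[0, 1, 4], [6, 7, 5], [9, 8, 5], [9, 10, 14], [2, 3, 4], [3, 21, 22], [3, 24, 23], [12, 11, 14], [15, 16, 13], [18, 17, 13], [18, 19, 22], [25, 23, 26], [6, 3, 5], [12, 13, 14], [21, 20, 22], [1, 2, 4], [3, 22, 23], [14, 15, 13], [1, 4, 0], [7, 5, 6], [8, 5, 9], [10, 14, 9], [24, 23, 3], [11, 14, 12], [17, 13, 18], [19, 22, 18], [23, 26, 25], [7, 8, 5], [3, 4, 5], [11, 10, 14], [16, 17, 13], [20, 19, 22], [25, 24, 23]],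
   [[0, 1, 2, 4], [6, 7, 8, 5], [9, 10, 11, 14], [3, 21, 20, 22], [3, 24, 25, 23], [12, 13, 15, 14], [16, 17, 18, 13], [7, 5, 3, 6], [2, 3, 4, 1], [22, 18, 19, 20], [24, 23, 26, 25], [21, 22, 23, 3], [10, 14, 12, 11], [7, 8, 9, 5], [15, 16, 17, 13], [3, 4, 5, 6], [1, 2, 4, 0], [10, 11, 14, 9], [21, 20, 22, 3], [17, 18, 13, 16], [12, 11, 14, 13], [21, 20, 19, 22]],
   [[0, 1, 2, 3, 4], [6, 7, 8, 9, 5], [9, 10, 11, 12, 14], [3, 21, 20, 19, 22], [3, 24, 25, 26, 23], [15, 16, 17, 18, 13], [11, 14, 15, 13, 12], [2, 4, 5, 6, 3], [3, 21, 22, 23, 24], [6, 7, 8, 5, 3], [12, 11, 10, 14, 13], [20, 21, 22, 18, 19], [21, 20, 22, 23, 3], [3, 22, 23, 25, 24], [1, 2, 3, 4, 0], [10, 11, 12, 14, 9], [6, 7, 5, 4, 3], [2, 3, 5, 4, 1], [12, 13, 16, 15, 14], [15, 16, 17, 13, 14]],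
   [[0, 1, 2, 3, 5, 4], [9, 10, 11, 12, 13, 14], [3, 21, 20, 19, 18, 22], [3, 6, 7, 8, 9, 5], [21, 22, 23, 25, 24, 3], [13, 17, 16, 15, 14, 12], [3, 22, 23, 26, 25, 24], [6, 7, 8, 5, 4, 3], [6, 7, 5, 4, 2, 3], [3, 2, 1, 4, 5, 6], [21, 20, 19, 22, 23, 3], [3, 21, 20, 22, 23, 24], [12, 11, 10, 14, 15, 13], [12, 11, 14, 15, 16, 13], [15, 16, 17, 18, 13, 14], [1, 2, 3, 5, 4, 0], [10, 11, 12, 13, 14, 9]],
   [[0, 1, 2, 3, 6, 5, 4], [9, 5, 3, 22, 18, 13, 14], [3, 21, 20, 19, 22, 23, 24], [12, 11, 10, 14, 15, 16, 13], [21, 22, 23, 26, 25, 24, 3], [6, 7, 8, 9, 5, 4, 3], [11, 14, 15, 16, 17, 13, 12], [11, 12, 13, 15, 14, 9, 10], [6, 7, 8, 5, 4, 2, 3], [6, 7, 5, 4, 1, 2, 3], [21, 20, 19, 18, 22, 23, 3], [3, 21, 20, 22, 23, 25, 24], [13, 18, 17, 16, 15, 14, 12], [1, 2, 3, 6, 5, 4, 0]],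
   [[0, 1, 2, 3, 6, 7, 5, 4], [9, 8, 5, 3, 22, 18, 13, 14], [3, 21, 20, 19, 22, 23, 25, 24], [12, 11, 10, 14, 15, 16, 17, 13], [21, 20, 22, 23, 26, 25, 24, 3], [11, 12, 13, 16, 15, 14, 9, 10], [6, 7, 8, 9, 5, 4, 2, 3], [3, 21, 20, 19, 18, 22, 23, 24], [12, 11, 14, 15, 16, 17, 18, 13], [1, 2, 3, 6, 7, 5, 4, 0], [6, 7, 8, 5, 4, 1, 2, 3], [3, 22, 18, 13, 14, 9, 5, 6], [9, 5, 3, 21, 22, 18, 13, 14], [9, 5, 3, 22, 18, 13, 12, 14], [9, 5, 3, 22, 18, 13, 15, 14], [9, 5, 3, 23, 22, 18, 13, 14], [9, 5, 4, 3, 22, 18, 13, 14]],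
   [[0, 1, 2, 3, 6, 7, 8, 5, 4], [9, 5, 3, 21, 20, 19, 18, 13, 14], [9, 10, 11, 12, 13, 17, 16, 15, 14], [21, 20, 19, 22, 23, 26, 25, 24, 3], [3, 22, 18, 17, 13, 14, 9, 5, 6], [6, 7, 8, 9, 5, 4, 1, 2, 3], [9, 5, 3, 21, 22, 18, 13, 12, 14], [9, 5, 3, 22, 18, 13, 15, 14, 10], [9, 5, 4, 3, 23, 22, 18, 13, 14], [1, 2, 3, 6, 7, 8, 5, 4, 0], [6, 7, 5, 9, 14, 13, 18, 22, 3], [9, 5, 3, 21, 20, 22, 18, 13, 14], [9, 5, 3, 22, 18, 17, 16, 13, 14], [9, 5, 3, 22, 18, 13, 12, 11, 14], [9, 5, 3, 24, 23, 22, 18, 13, 14], [9, 5, 4, 2, 3, 22, 18, 13, 14], [3, 21, 20, 19, 18, 22, 23, 25, 24]],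
   [[0, 1, 2, 3, 6, 7, 8, 9, 5, 4], [9, 10, 11, 12, 13, 18, 17, 16, 15, 14], [3, 21, 20, 19, 18, 22, 23, 26, 25, 24], [9, 8, 5, 3, 22, 18, 17, 13, 14, 10], [3, 21, 22, 18, 13, 12, 14, 9, 5, 6], [9, 5, 3, 23, 22, 19, 18, 13, 15, 14], [8, 9, 14, 13, 18, 22, 3, 4, 5, 7], [6, 3, 24, 23, 22, 18, 13, 14, 9, 5], [1, 2, 3, 6, 7, 8, 9, 5, 4, 0], [6, 3, 21, 20, 22, 18, 13, 14, 9, 5], [6, 3, 22, 18, 17, 16, 13, 14, 9, 5], [6, 3, 22, 18, 13, 12, 11, 14, 9, 5], [9, 8, 5, 4, 2, 3, 22, 18, 13, 14], [9, 5, 3, 24, 25, 23, 22, 18, 13, 14], [9, 5, 4, 1, 2, 3, 22, 18, 13, 14]],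
   [[0, 1, 2, 3, 22, 18, 13, 14, 9, 5, 4], [9, 8, 5, 3, 21, 20, 19, 18, 17, 13, 14], [18, 13, 12, 11, 10, 9, 5, 6, 3, 23, 22], [6, 7, 8, 9, 10, 14, 15, 13, 18, 22, 3], [9, 5, 3, 21, 22, 18, 17, 16, 13, 12, 14], [9, 5, 3, 24, 25, 23, 22, 19, 18, 13, 14], [6, 7, 5, 9, 10, 11, 14, 13, 18, 22, 3], [9, 8, 5, 4, 3, 21, 20, 22, 18, 13, 14], [9, 5, 3, 24, 25, 26, 23, 22, 18, 13, 14], [9, 5, 3, 24, 23, 22, 18, 17, 16, 15, 14], [1, 2, 3, 22, 18, 13, 14, 9, 5, 4, 0], [7, 8, 9, 14, 13, 18, 22, 3, 2, 4, 5], [9, 8, 5, 4, 1, 2, 3, 22, 18, 13, 14]],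
   [[0, 1, 2, 3, 21, 22, 18, 13, 14, 9, 5, 4], [9, 8, 5, 3, 22, 19, 18, 17, 16, 15, 14, 10], [9, 10, 11, 12, 13, 18, 22, 23, 3, 6, 7, 8], [3, 21, 20, 19, 18, 17, 13, 12, 14, 9, 5, 6], [9, 5, 3, 24, 25, 26, 23, 22, 18, 13, 15, 14], [8, 9, 10, 11, 14, 13, 18, 22, 3, 4, 5, 7], [6, 3, 21, 20, 22, 18, 17, 16, 13, 14, 9, 5], [9, 8, 5, 4, 2, 3, 24, 23, 22, 18, 13, 14], [1, 2, 3, 21, 22, 18, 13, 14, 9, 5, 4, 0], [6, 7, 8, 9, 14, 13, 18, 22, 23, 25, 24, 3], [7, 8, 9, 14, 13, 18, 22, 3, 2, 1, 4, 5]],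
   [[0, 1, 2, 3, 21, 20, 19, 18, 13, 14, 9, 5, 4], [6, 7, 8, 9, 10, 11, 12, 13, 16, 17, 18, 22, 3], [9, 8, 5, 3, 24, 25, 23, 22, 18, 17, 13, 15, 14], [7, 5, 9, 10, 14, 12, 13, 18, 19, 22, 21, 3, 6], [3, 23, 22, 18, 17, 16, 15, 14, 11, 10, 9, 5, 6], [9, 8, 5, 4, 3, 24, 25, 26, 23, 22, 18, 13, 14], [9, 5, 4, 2, 3, 24, 23, 22, 20, 19, 18, 13, 14], [1, 2, 3, 21, 20, 19, 18, 13, 14, 9, 5, 4, 0], [6, 7, 8, 9, 14, 13, 18, 22, 3, 2, 1, 4, 5]],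
   [[0, 1, 2, 3, 21, 20, 19, 18, 17, 13, 14, 9, 5, 4], [6, 7, 8, 9, 10, 11, 12, 13, 18, 22, 23, 25, 24, 3], [18, 17, 16, 13, 15, 14, 10, 9, 8, 5, 6, 3, 22, 19], [8, 9, 10, 11, 14, 12, 13, 18, 19, 20, 22, 3, 5, 7], [9, 5, 4, 3, 24, 25, 26, 23, 22, 18, 17, 16, 15, 14], [9, 8, 5, 4, 2, 3, 23, 22, 21, 20, 19, 18, 13, 14], [7, 8, 9, 14, 13, 18, 22, 23, 24, 3, 2, 1, 4, 5], [1, 2, 3, 21, 20, 19, 18, 17, 13, 14, 9, 5, 4, 0]],
   [[0, 1, 2, 3, 21, 20, 19, 18, 17, 16, 15, 14, 9, 5, 4], [6, 7, 8, 9, 10, 11, 12, 13, 18, 22, 23, 25, 24, 3, 5], [7, 5, 8, 9, 10, 11, 12, 14, 13, 17, 18, 19, 22, 3, 6], [9, 5, 4, 3, 21, 22, 20, 19, 18, 17, 16, 13, 15, 14, 10], [9, 5, 4, 2, 3, 24, 25, 26, 23, 22, 18, 13, 12, 11, 14], [7, 8, 9, 10, 14, 13, 18, 22, 23, 3, 2, 1, 4, 5, 6], [1, 2, 3, 24, 23, 22, 18, 17, 16, 15, 14, 9, 5, 4, 0]],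
   [[0, 1, 2, 3, 21, 20, 19, 18, 17, 16, 15, 13, 14, 9, 5, 4], [6, 7, 8, 9, 10, 11, 12, 13, 18, 22, 23, 26, 25, 24, 3, 5], [7, 5, 8, 9, 10, 11, 14, 15, 16, 13, 17, 18, 19, 22, 3, 6], [7, 8, 9, 10, 14, 12, 13, 18, 19, 20, 22, 21, 3, 4, 5, 6], [6, 7, 8, 9, 10, 11, 12, 13, 18, 19, 22, 23, 3, 2, 4, 5], [6, 7, 8, 9, 10, 14, 13, 18, 22, 23, 24, 3, 2, 1, 4, 5], [1, 2, 3, 24, 25, 23, 22, 18, 17, 16, 15, 14, 9, 5, 4, 0]],
   [[0, 1, 2, 3, 21, 20, 19, 18, 17, 16, 15, 13, 12, 14, 9, 5, 4], [14, 13, 18, 22, 23, 26, 25, 24, 3, 5, 6, 7, 8, 9, 10, 11, 12], [7, 5, 8, 9, 10, 11, 14, 15, 16, 13, 17, 18, 19, 20, 22, 3, 6], [6, 7, 8, 9, 10, 14, 12, 13, 16, 17, 18, 19, 22, 21, 3, 4, 5], [6, 7, 8, 9, 10, 11, 12, 13, 16, 17, 18, 22, 23, 3, 2, 4, 5], [6, 7, 8, 9, 10, 11, 12, 13, 18, 22, 23, 24, 3, 2, 1, 4, 5], [1, 2, 3, 24, 25, 23, 22, 18, 17, 16, 15, 13, 14, 9, 5,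 4, 0]],
   [[0, 1, 2, 3, 21, 20, 19, 18, 17, 16, 15, 13, 12, 11, 10, 9, 5, 4], [10, 11, 14, 15, 16, 13, 18, 22, 23, 26, 25, 24, 3, 5, 6, 7, 8, 9], [7, 5, 8, 9, 10, 11, 12, 14, 13, 17, 18, 19, 20, 21, 22, 23, 3, 6], [6, 7, 8, 9, 14, 10, 11, 12, 13, 15, 16, 17, 18, 19, 22, 3, 4, 5], [6, 7, 8, 9, 10, 11, 12, 13, 18, 19, 20, 22, 23, 24, 3, 2, 4, 5], [6, 7, 8, 9, 10, 11, 12, 13, 18, 22, 23, 25, 24, 3, 2, 1, 4, 5], [1, 2, 3, 21, 20, 19, 18, 17, 16, 15, 13, 12, 11, 10, 9, 5, 4, 0]],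
   [[0, 1, 2, 3, 21, 20, 19, 18, 17, 16, 15, 13, 12, 11, 10, 9, 8, 5, 4], [9, 10, 11, 12, 14, 15, 16, 13, 18, 22, 23, 26, 25, 24, 3, 5, 6, 7, 8], [7, 5, 9, 10, 14, 11, 12, 13, 17, 18, 19, 20, 21, 22, 23, 25, 24, 3, 6], [6, 7, 8, 9, 14, 13, 15, 16, 17, 18, 19, 20, 22, 23, 3, 2, 1, 4, 5], [6, 7, 8, 9, 10, 11, 12, 13, 15, 16, 17, 18, 19, 22, 23, 24, 3, 4, 5], [6, 7, 8, 9, 10, 11, 12, 13, 15, 16, 17, 18, 19, 20, 22, 3, 2, 4, 5], [1, 2, 3, 21, 20, 19, 18, 17, 16, 15, 13, 12, 11, 10, 9, 8, 5, 4, 0]],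
   [[0, 1, 2, 3, 21, 20, 19, 18, 17, 16, 15, 13, 12, 11, 10, 9, 8, 7, 5, 4], [8, 5, 9, 10, 11, 12, 14, 15, 16, 17, 13, 18, 22, 23, 26, 25, 24, 3, 6, 7], [7, 8, 9, 10, 11, 14, 13, 16, 17, 18, 19, 20, 21, 22, 3, 2, 1, 4, 5, 6], [6, 7, 8, 9, 14, 10, 11, 12, 13, 15, 16, 17, 18, 19, 20, 22, 23, 3, 4, 5], [6, 7, 8, 9, 10, 11, 12, 13, 15, 16, 17, 18, 19, 22, 23, 24, 3, 2, 4, 5], [6, 7, 8, 9, 10, 11, 12, 13, 15, 16, 17, 18, 19, 20, 22, 23, 25, 24, 3, 5], [1, 2, 3, 21, 20, 19, 18, 17, 16, 15, 13, 12, 11, 10, 9, 8, 7, 5, 4, 0]],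
   [[0, 1, 2, 3, 21, 20, 19, 18, 17, 16, 15, 13, 12, 11, 10, 9, 8, 7, 6, 5, 4], [7, 8, 5, 9, 10, 11, 12, 14, 15, 16, 17, 13, 18, 19, 22, 23, 26, 25, 24, 3, 6], [8, 9, 10, 11, 14, 13, 16, 17, 18, 19, 20, 21, 22, 23, 25, 24, 3, 2, 4, 5, 7], [6, 7, 8, 9, 14, 10, 11, 12, 13, 15, 16, 17, 18, 19, 20, 22, 3, 2, 1, 4, 5], [1, 2, 3, 24, 23, 22, 18, 17, 16, 15, 13, 12, 11, 10, 9, 8, 7, 6, 5, 4, 0], [6, 7, 8, 9, 10, 11, 12, 13, 14, 15, 16, 17, 18, 19, 20, 21, 22, 23, 3, 4, 5], [6, 7, 8, 9, 10, 11, 12, 13, 15, 16, 17, 18, 19, 20, 21, 22, 23, 25, 24, 3, 5]],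
   [[0, 1, 2, 3, 21, 20, 19, 18, 17, 16, 15, 13, 12, 11, 10, 14, 9, 8, 7, 6, 5, 4], [7, 8, 5, 9, 10, 11, 12, 14, 15, 16, 17, 13, 18, 19, 20, 22, 23, 26, 25, 24, 3, 6], [8, 9, 10, 11, 14, 13, 16, 17, 18, 19, 20, 21, 22, 23, 25, 24, 3, 2, 1, 4, 5, 7], [1, 2, 3, 21, 20, 19, 22, 18, 17, 16, 15, 13, 12, 11, 10, 9, 8, 7, 6, 5, 4, 0], [6, 7, 8, 9, 10, 11, 12, 13, 15, 16, 17, 18, 19, 20, 21, 22, 23, 24, 3, 2, 4, 5], [0, 1, 2, 3, 22, 21, 20, 19, 18, 17, 16, 15, 13, 12, 11, 10, 9, 8, 7, 6, 5, 4], [0, 1, 2, 3, 23, 22, 21, 20, 19, 18, 17, 16, 15, 13, 12, 11, 10, 9, 8, 7, 5, 4], [6, 7, 8, 9, 10, 11, 12, 13, 15, 16, 17, 18, 19, 20, 21, 22, 23, 25, 24, 3, 4, 5], [6, 7, 8, 9, 10, 11, 12, 13, 15, 16, 17, 18, 19, 20, 21, 22, 23, 26, 25, 24, 3, 5]],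
   [[0, 1, 2, 3, 21, 20, 19, 22, 18, 17, 16, 15, 13, 12, 11, 10, 14, 9, 8, 7, 6, 5, 4], [7, 8, 5, 9, 10, 11, 12, 14, 15, 16, 17, 13, 18, 19, 20, 21, 22, 23, 26, 25, 24, 3, 6], [1, 2, 3, 24, 25, 23, 22, 21, 20, 19, 18, 17, 16, 13, 14, 11, 10, 9, 8, 7, 5, 4, 0], [6, 7, 8, 9, 10, 11, 12, 13, 14, 15, 16, 17, 18, 19, 20, 22, 23, 24, 3, 2, 1, 4, 5], [0, 1, 2, 3, 22, 21, 20, 19, 18, 17, 16, 15, 13, 12, 11, 10, 14, 9, 8, 7, 6, 5, 4], [0, 1, 2, 3, 23, 22, 21, 20, 19, 18, 17, 16, 15, 13, 12, 11, 10, 9, 8, 7, 6, 5, 4], [6, 7, 8, 9, 10, 11, 12, 13, 15, 16, 17, 18, 19, 20, 21, 22, 23, 25, 24, 3, 2, 4, 5], [6, 7, 8, 9, 10, 11, 12, 13, 15, 16, 17, 18, 19, 20, 21, 22, 23, 26, 25, 24, 3, 4, 5], [6, 7, 8, 9, 10, 11, 12, 13, 14, 15, 16, 17, 18, 19, 20, 21, 22, 23, 26, 25, 24, 3, 5]]]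

def hams : List (List ℕ) :=
  [[0, 1, 2, 3, 4, 5, 6, 7, 8, 9, 10, 11, 12, 13, 14, 15, 16, 17, 18, 19, 20, 21, 22, 23, 24, 25, 26],
   [0, 1, 2, 4, 5, 6, 7, 8, 9, 10, 11, 12, 14, 15, 16, 17, 13, 18, 19, 22, 20, 21, 3, 24, 25, 23, 26],
   [0, 4, 1, 2, 3, 6, 7, 8, 5, 9, 10, 14, 11, 12, 13, 15, 16, 17, 18, 19, 20, 21, 22, 23, 24, 25, 26],
   [0, 1, 2, 4, 5, 6, 7, 8, 9, 10, 11, 12, 14, 15, 16, 13, 17, 18, 19, 20, 21, 22, 3, 23, 24, 25, 26],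
   [0, 1, 2, 4, 3, 6, 7, 5, 8, 9, 14, 10, 11, 12, 13, 15, 16, 17, 18, 19, 20, 21, 22, 23, 24, 25, 26],
   [0, 1, 2, 4, 3, 5, 6, 7, 8, 9, 10, 11, 12, 13, 14, 15, 16, 17, 18, 19, 20, 21, 22, 23, 24, 25, 26],
   [0, 1, 2, 4, 5, 6, 7, 8, 9, 10, 11, 12, 13, 14, 15, 16, 17, 18, 22, 19, 20, 21, 3, 24, 25, 23, 26]]

def adj (x y : ℕ) : Bool := E.contains (x, y) || E.contains (y, x)

def good (i : ℕ) (l : List ℕ) : Bool :=
  (List.range (i - 1)).all (fun j => adj (l.getD j 0) (l.getD (j + 1) 0)) &&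
  (List.range i).all (fun j => decide (l.getD j 0 ≤ 26) &&
    (List.range j).all (fun a => decide (l.getD a 0 ≠ l.getD j 0)))

def on (i : ℕ) (l : List ℕ) (x y : ℕ) : Bool :=
  (List.range (i - 1)).any (fun j => (l.getD j 0 == x && l.getD (j + 1) 0 == y) ||
    (l.getD j 0 == y && l.getD (j + 1) 0 == x))

set_option maxRecDepth 100000 in
theorem ck1 : (List.range 21).all (fun i => (cycs.getD (i + 3) []).all (fun l =>
    good (i + 3) l && adj (l.getD 0 0) (l.getD (i + 2) 0))) = true := by decide +kernel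

set_option maxRecDepth 100000 in
theorem ck2 : (List.range 21).all (fun i => E.all (fun e => (cycs.getD (i + 3) []).any (fun l =>
    on (i + 3) l e.1 e.2))) = true := by decide +kernel

set_option maxRecDepth 100000 in
theorem ck3 : hams.all (fun l => good 27 l && l.getD 0 0 == 0 && l.getD 26 0 == 26) = true := by
  decide +kernel

set_option maxRecDepth 100000 in
theorem ck4 : E.all (fun e => hams.any (fun l => on 27 l e.1 e.2)) = true := by decide +kernel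

theorem ck5 : ∀ e ∈ E, e.1 < e.2 ∧ e.2 ≤ 26 := by decide +kernel

theorem ck6 : ∀ x < 26, (x, x + 1) ∈ E := by decide +kernel

theorem path_walk {V : Type} {G : SimpleGraph V} (p : ℕ → V) :
    ∀ t, (∀ i, i < t → G.Adj (p i) (p (i + 1))) → ∃ w : G.Walk (p t) (p 0),
      w.length = t ∧ (∀ x ∈ w.support, ∃ i ≤ t, x = p i) ∧
      (∀ e, e ∈ w.edges ↔ ∃ i < t, e = s(p (i + 1), p i)) ∧
      ((∀ i j, i < j → j ≤ t → p i ≠ p j) → w.IsPath)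
  | 0, _ => ⟨.nil, rfl, by simp, by simp, by simp⟩
  | t + 1, h => by
    obtain ⟨w, h1, h2, h3, h4⟩ := path_walk p t (fun i hi => h i (by omega))
    refine ⟨.cons (h t (by omega)).symm w, by simp [h1], ?_, ?_, ?_⟩
    · intro x hx
      rw [Walk.support_cons, List.mem_cons] at hx
      rcases hx with rfl | hx
      · exact ⟨t + 1, le_rfl, rfl⟩
      · obtain ⟨i, hi, rfl⟩ := h2 x hx
        exact ⟨i, by omega, rfl⟩
    · intro e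
      rw [Walk.edges_cons, List.mem_cons, h3]
      constructor
      · rintro (rfl | ⟨i, hi, rfl⟩)
        · exact ⟨t, by omega, rfl⟩
        · exact ⟨i, by omega, rfl⟩
      · rintro ⟨i, hi, rfl⟩
        rcases Nat.lt_succ_iff_lt_or_eq.1 hi with hi | rfl
        · exact Or.inr ⟨i, hi, rfl⟩
        · exact Or.inl rfl
    · intro hinj
      rw [Walk.cons_isPath_iff]
      refine ⟨h4 (fun i j hij hj => hinj i j hij (by omega)), fun hx => ?_⟩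
      obtain ⟨i, hi, he⟩ := h2 _ hx
      exact hinj i (t + 1) (by omega) le_rfl he.symm

theorem close_cycle {V : Type} {G : SimpleGraph V} (p : ℕ → V) (t : ℕ) (ht : 2 ≤ t)
    (h : ∀ i, i < t → G.Adj (p i) (p (i + 1))) (h0 : G.Adj (p 0) (p t))
    (hinj : ∀ i j, i < j → j ≤ t → p i ≠ p j) (j : ℕ) (hj : j < t) :
    InCyc G s(p j, p (j + 1)) (t + 1) := by
  obtain ⟨w, h1, -, h3, h4⟩ := path_walk p t h
  refine ⟨p 0, .cons h0 w, (Walk.cons_isCycle_iff _ _).2 ⟨h4 hinj, fun he => ?_⟩, by simp [h1], ?_⟩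
  · obtain ⟨i, hi, he⟩ := (h3 _).1 he
    rcases Sym2.eq_iff.1 he with ⟨a, -⟩ | ⟨a, b⟩
    · exact hinj 0 (i + 1) (by omega) (by omega) a
    · rcases Nat.eq_zero_or_pos i with rfl | hi0
      · exact hinj 1 t (by omega) le_rfl b.symm
      · exact hinj 0 i hi0 (by omega) a
  · rw [Walk.edges_cons, List.mem_cons]
    exact Or.inr ((h3 _).2 ⟨j, hj, Sym2.eq_swap⟩)

def vx (s m : ℕ) : Fin (26 * (s + 2)) := ⟨m % (26 * (s + 2)), Nat.mod_lt _ (by omega)⟩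

def S (s : ℕ) : Finset (Sym2 (Fin (26 * (s + 2)))) :=
  (Finset.range (s + 2) ×ˢ E.toFinset).image
    (fun q => s(vx s (26 * q.1 + q.2.1), vx s (26 * q.1 + q.2.2)))

def G (s : ℕ) : SimpleGraph (Fin (26 * (s + 2))) := fromEdgeSet (S s : Set _)

theorem vx_eq {s a b : ℕ} : vx s a = vx s b ↔ a ≡ b [MOD 26 * (s + 2)] := by
  simp [vx, Fin.ext_iff, Nat.ModEq]

theorem vx_inj {s c a b : ℕ} (ha : a < 26 * (s + 2)) (hb : b < 26 * (s + 2))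
    (h : vx s (c + a) = vx s (c + b)) : a = b :=
  Nat.ModEq.eq_of_lt_of_lt (Nat.ModEq.add_left_cancel' c (vx_eq.1 h)) ha hb

theorem vx_mod (s c x : ℕ) : vx s (26 * (c % (s + 2)) + x) = vx s (26 * c + x) :=
  vx_eq.2 (Nat.ModEq.add_right x (Nat.ModEq.mul_left' 26 (Nat.mod_modEq c (s + 2))))

theorem adjE (s c : ℕ) {x y : ℕ} (h : (x, y) ∈ E) :
    (G s).Adj (vx s (26 * c + x)) (vx s (26 * c + y)) := by
  have h5 := ck5 _ h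
  simp only at h5
  rw [G, fromEdgeSet_adj]
  refine ⟨?_, fun he => ?_⟩
  · rw [Finset.mem_coe, S, Finset.mem_image]
    refine ⟨(c % (s + 2), (x, y)), ?_, by simp only [vx_mod]⟩
    rw [Finset.mem_product, Finset.mem_range, List.mem_toFinset]
    exact ⟨Nat.mod_lt _ (by omega), h⟩
  · have := vx_inj (by omega) (by omega) he
    omega

theorem adjB (s c : ℕ) {x y : ℕ} (h : adj x y = true) :
    (G s).Adj (vx s (26 * c + x)) (vx s (26 * c + y)) := by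
  simp only [adj, Bool.or_eq_true, List.contains_iff_mem] at h
  rcases h with h | h
  · exact adjE s c h
  · exact (adjE s c h).symm

theorem adjS (s m : ℕ) : (G s).Adj (vx s m) (vx s (m + 1)) := by
  have := adjE s (m / 26) (ck6 (m % 26) (Nat.mod_lt _ (by omega)))
  rwa [show 26 * (m / 26) + m % 26 = m by omega,
    show 26 * (m / 26) + (m % 26 + 1) = m + 1 by omega] at this

theorem good_iff {i : ℕ} {l : List ℕ} (h : good i l = true) :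
    (∀ j, j < i - 1 → adj (l.getD j 0) (l.getD (j + 1) 0) = true) ∧
    (∀ j, j < i → l.getD j 0 ≤ 26 ∧ ∀ a, a < j → l.getD a 0 ≠ l.getD j 0) := by
  simpa only [good, Bool.and_eq_true, List.all_eq_true, List.mem_range, decide_eq_true_eq] using h

theorem on_iff {i x y : ℕ} {l : List ℕ} (h : on i l x y = true) :
    ∃ j, j < i - 1 ∧ ((l.getD j 0 = x ∧ l.getD (j + 1) 0 = y) ∨
      (l.getD j 0 = y ∧ l.getD (j + 1) 0 = x)) := by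
  simpa only [on, List.any_eq_true, List.mem_range, Bool.or_eq_true, Bool.and_eq_true,
    beq_iff_eq] using h

theorem short (s c : ℕ) {x y : ℕ} (h : (x, y) ∈ E) (i : ℕ) (hi : i < 21) :
    InCyc (G s) s(vx s (26 * c + x), vx s (26 * c + y)) (i + 3) := by
  have c1 := ck1
  have c2 := ck2
  simp only [List.all_eq_true, List.mem_range, List.any_eq_true, Bool.and_eq_true] at c1 c2
  obtain ⟨l, hl, ho⟩ := c2 i hi _ h
  obtain ⟨hg, hc⟩ := c1 i hi l hl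
  obtain ⟨g1, g2⟩ := good_iff hg
  obtain ⟨j, hj, hxy⟩ := on_iff ho
  have := close_cycle (G := G s) (fun m => vx s (26 * c + l.getD m 0)) (i + 2) (by omega)
    (fun m hm => adjB s c (g1 m (by omega))) (adjB s c hc)
    (fun a b hab hb he => by
      have ha := (g2 a (by omega)).1
      have hb' := g2 b (by omega)
      exact hb'.2 a hab (vx_inj (by omega) (by omega) he)) j (by omega)
  rcases hxy with ⟨e1, e2⟩ | ⟨e1, e2⟩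
  · simpa only [e1, e2] using this
  · rw [Sym2.eq_swap]
    simpa only [e1, e2] using this

theorem long (s c : ℕ) {x y : ℕ} (h : (x, y) ∈ E) :
    InCyc (G s) s(vx s (26 * c + x), vx s (26 * c + y)) (26 * (s + 2)) := by
  have c3 := ck3
  have c4 := ck4
  simp only [List.all_eq_true, List.any_eq_true, Bool.and_eq_true, beq_iff_eq] at c3 c4
  obtain ⟨l, hl, ho⟩ := c4 _ h
  obtain ⟨⟨hg, h0⟩, h26⟩ := c3 l hl
  obtain ⟨g1, g2⟩ := good_iff hg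
  obtain ⟨j, hj, hxy⟩ := on_iff ho
  have := close_cycle (G := G s) (fun m => vx s (26 * c + if m ≤ 26 then l.getD m 0 else m))
    (26 * s + 51) (by omega)
    (fun m hm => by
      by_cases h1 : m < 26
      · simp only [if_pos (show m ≤ 26 by omega), if_pos (show m + 1 ≤ 26 by omega)]
        exact adjB s c (g1 m (by omega))
      · have e1 : (if m ≤ 26 then l.getD m 0 else m) = m := by
          split_ifs with h2
          · obtain rfl : m = 26 := by omega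
            exact h26
          · rfl
        simp only [e1, if_neg (show ¬ m + 1 ≤ 26 by omega)]
        exact adjS s (26 * c + m))
    (by
      simp only [if_pos (show 0 ≤ 26 by omega), if_neg (show ¬ 26 * s + 51 ≤ 26 by omega), h0]
      have := (adjS s (26 * c + (26 * s + 51))).symm
      rwa [show vx s (26 * c + (26 * s + 51) + 1) = vx s (26 * c + 0) from
        vx_eq.2 (by
          rw [show 26 * c + (26 * s + 51) + 1 = 26 * c + 0 + 26 * (s + 2) by omega]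
          simp [Nat.ModEq])] at this)
    (fun a b hab hb he => by
      by_cases h1 : b ≤ 26
      · simp only [if_pos h1, if_pos (show a ≤ 26 by omega)] at he
        have ha := (g2 a (by omega)).1
        have hb' := g2 b (by omega)
        exact hb'.2 a hab (vx_inj (by omega) (by omega) he)
      · simp only [if_neg h1] at he
        by_cases h2 : a ≤ 26
        · simp only [if_pos h2] at he
          have ha := (g2 a (by omega)).1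
          have := vx_inj (by omega) (by omega) he
          omega
        · simp only [if_neg h2] at he
          have := vx_inj (by omega) (by omega) he
          omega) j (by omega)
  simp only [if_pos (show j ≤ 26 by omega), if_pos (show j + 1 ≤ 26 by omega)] at this
  rw [show 26 * s + 51 + 1 = 26 * (s + 2) by omega] at this
  rcases hxy with ⟨e1, e2⟩ | ⟨e1, e2⟩
  · simpa only [e1, e2] using this
  · rw [Sym2.eq_swap]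
    simpa only [e1, e2] using this

theorem sub (s : ℕ) : (G s).edgeSet ⊆ (S s : Set _) := by
  rw [G, edgeSet_fromEdgeSet]
  exact Set.sdiff_subset

theorem proper (s k : ℕ) (hk : k ≤ 23) : EdgeProper k (G s) := by
  intro e he
  have := sub s he
  rw [Finset.mem_coe, S, Finset.mem_image] at this
  obtain ⟨⟨c, x, y⟩, hq, rfl⟩ := this
  rw [Finset.mem_product, List.mem_toFinset] at hq
  refine ⟨fun i h3 hi => ?_, ?_⟩
  · have := short s c hq.2 (i - 3) (by omega)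
    rwa [show i - 3 + 3 = i by omega] at this
  · obtain ⟨v, w, h1, h2, h3⟩ := long s c hq.2
    exact ⟨v, w, Walk.isHamiltonianCycle_iff_isCycle_and_length_eq.2 ⟨h1, by simpa using h2⟩, h3⟩

theorem count (s : ℕ) : (G s).edgeSet.ncard ≤ 51 * (s + 2) := by
  refine (Set.ncard_le_ncard (sub s) (Finset.finite_toSet _)).trans ?_
  rw [Set.ncard_coe_finset, S]
  refine Finset.card_image_le.trans ?_
  rw [Finset.card_product, Finset.card_range, mul_comm]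
  exact Nat.mul_le_mul_right _ (List.toFinset_card_le E)

theorem result (k : ℕ) (h16 : 16 ≤ k) (h23 : k ≤ 23) (n₀ : ℕ) :
    ∃ n, n₀ ≤ n ∧ ∃ H : SimpleGraph (Fin n), H ≠ ⊥ ∧ EdgeProper k H ∧
      (H.edgeSet.ncard : ℤ) < ⌈((4 * k - 9) * n : ℚ) / (2 * k - 4)⌉ := by
  refine ⟨26 * (n₀ + 2), by omega, G n₀, fun h => ?_, proper n₀ k h23, ?_⟩
  · have := adjS n₀ 0
    rw [h] at this
    exact this
  · rw [Int.lt_ceil]
    have h1 : ((G n₀).edgeSet.ncard : ℚ) ≤ 51 * (n₀ + 2) := by exact_mod_cast count n₀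
    have hk : (16 : ℚ) ≤ k := by exact_mod_cast h16
    have h0 : (0 : ℚ) ≤ n₀ := by positivity
    rw [lt_div_iff₀ (by linarith)]
    push_cast
    nlinarith [mul_nonneg h0 (sub_nonneg.2 hk), mul_le_mul_of_nonneg_right h1 (show (0 : ℚ) ≤ 2 * k - 4 by linarith)]

end Pool.Agent.Results.MP_0ca78d_co.Neck
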